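import Pool.Agent.H41.SF.Twist

/-!
Mertens' first theorem, and Mertens' first theorem in arithmetic progressions:
`∑_{p ≤ N, p ≡ a (q)} (log p)/p = (log N)/φ(q) + O(1)`.
-/

set_option autoImplicit false

namespace Pool.Agent.H41.SF

open Finset Filter Topology ArithmeticFunction ArithmeticFunction.vonMangoldt

lemma log_factorial_eq (N : ℕ) : Real.log (N.factorial) = ∑ n ∈ Ioc 0 N, Real.log n := by
  induction N with
  | zero => simp
  | succ n ih =>
    rw [Nat.factorial_succ, Nat.cast_mul, Real.log_mul (by positivity) (by positivity), ih]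
    have : Ioc 0 (n+1) = insert (n+1) (Ioc 0 n) := by ext; simp; omega
    rw [this, Finset.sum_insert (by simp)]

lemma log_factorial_lower (N : ℕ) (hN : 1 ≤ N) :
    N * Real.log N - N ≤ Real.log (N.factorial) := by
  have hN0 : (0:ℝ) < N := by exact_mod_cast hN
  have h := Real.pow_div_factorial_le_exp (N:ℝ) hN0.le N
  have h1 : (0:ℝ) < N.factorial := by exact_mod_cast N.factorial_pos
  have h2 : Real.log ((N:ℝ)^N / N.factorial) ≤ N := by
    have := Real.log_le_log (by positivity) h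
    rwa [Real.log_exp] at this
  rw [Real.log_div (by positivity) (by positivity), Real.log_pow] at h2
  linarith

lemma log_factorial_upper (N : ℕ) : Real.log (N.factorial) ≤ N * Real.log N := by
  rw [log_factorial_eq]
  refine (Finset.sum_le_card_nsmul _ _ (Real.log N) fun n hn => ?_).trans ?_
  · obtain ⟨h1, h2⟩ := Finset.mem_Ioc.1 hn
    exact Real.log_le_log (by exact_mod_cast h1) (by exact_mod_cast h2)
  · simp

lemma log_factorial_mangoldt (N : ℕ) :
    Real.log (N.factorial) = ∑ n ∈ Ioc 0 N, vonMangoldt n * ((N / n : ℕ) : ℝ) := by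
  rw [log_factorial_eq, ← sum_Ioc_mul_zeta_eq_sum, vonMangoldt_mul_zeta]
  exact Finset.sum_congr rfl fun n _ => (log_apply).symm

/-- **Mertens' first theorem** for `Λ`. -/
theorem mertens : ∃ C : ℝ, 0 ≤ C ∧ ∀ N : ℕ, 1 ≤ N →
    |∑ n ∈ Ioc 0 N, vonMangoldt n / n - Real.log N| ≤ C := by
  obtain ⟨K, hK0, hK⟩ := psi_bound
  refine ⟨max 1 K, le_max_of_le_left zero_le_one, fun N hN => ?_⟩
  have hN0 : (0:ℝ) < N := by exact_mod_cast hN
  have hmul : (N:ℝ) * ∑ n ∈ Ioc 0 N, vonMangoldt n / n =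
      ∑ n ∈ Ioc 0 N, vonMangoldt n * ((N:ℝ) / n) := by
    rw [Finset.mul_sum]
    exact Finset.sum_congr rfl fun n _ => by ring
  have h1 : Real.log (N.factorial) ≤ (N:ℝ) * ∑ n ∈ Ioc 0 N, vonMangoldt n / n := by
    rw [hmul, log_factorial_mangoldt]
    exact Finset.sum_le_sum fun n _ =>
      mul_le_mul_of_nonneg_left Nat.cast_div_le vonMangoldt_nonneg
  have h2 : (N:ℝ) * ∑ n ∈ Ioc 0 N, vonMangoldt n / n ≤ Real.log (N.factorial) + K * N := by
    refine le_trans ?_ (add_le_add_right (hK N) _)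
    rw [hmul, log_factorial_mangoldt, ← Finset.sum_add_distrib]
    refine Finset.sum_le_sum fun n hn => ?_
    have hn0 := (Finset.mem_Ioc.1 hn).1
    have hn0' : (0:ℝ) < n := by exact_mod_cast hn0
    have : (N:ℝ) / n ≤ ((N / n : ℕ) : ℝ) + 1 := by
      rw [div_le_iff₀ hn0']
      have := Nat.lt_mul_div_succ N hn0
      have h3 : (N:ℝ) ≤ n * ((N / n + 1 : ℕ) : ℝ) := by exact_mod_cast this.le
      push_cast at h3
      linarith
    calc vonMangoldt n * ((N:ℝ) / n) ≤ vonMangoldt n * (((N / n : ℕ) : ℝ) + 1) :=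
          mul_le_mul_of_nonneg_left this vonMangoldt_nonneg
      _ = _ := by ring
  have h3 := log_factorial_lower N hN
  have h4 := log_factorial_upper N
  rw [abs_le]
  constructor
  · have : (N:ℝ) * (Real.log N - 1) ≤ N * ∑ n ∈ Ioc 0 N, vonMangoldt n / n := by linarith
    have := le_of_mul_le_mul_left this hN0
    have := le_max_left 1 K
    linarith
  · have : (N:ℝ) * ∑ n ∈ Ioc 0 N, vonMangoldt n / n ≤ N * (Real.log N + K) := by linarith
    have := le_of_mul_le_mul_left this hN0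
    have := le_max_right 1 K
    linarith

lemma nonprime_sum_bound : ∃ C : ℝ, 0 ≤ C ∧ ∀ s : Finset ℕ,
    ∑ n ∈ s, (if n.Prime then 0 else vonMangoldt n) / (n:ℝ) ≤ C := by
  have hs := summable_residueClass_non_primes_div (0 : ZMod 1)
  have hnn : ∀ n : ℕ, 0 ≤ (if n.Prime then 0 else residueClass (0 : ZMod 1) n) / (n:ℝ) := by
    intro n
    split_ifs
    · simp
    · exact div_nonneg (residueClass_nonneg _ n) (Nat.cast_nonneg n)
  refine ⟨∑' n : ℕ, (if n.Prime then 0 else residueClass (0 : ZMod 1) n) / (n:ℝ),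
    tsum_nonneg hnn, fun s => ?_⟩
  have := hs.sum_le_tsum s (fun n _ => hnn n)
  refine le_trans (le_of_eq ?_) this
  refine Finset.sum_congr rfl fun n _ => ?_
  have : residueClass (0 : ZMod 1) n = vonMangoldt n := by
    unfold residueClass
    rw [Set.indicator_of_mem]
    exact Subsingleton.elim _ _
  rw [this]

variable {q : ℕ} [NeZero q]

lemma nonunit_sum_bound (q : ℕ) [NeZero q] : ∃ C : ℝ, 0 ≤ C ∧ ∀ N : ℕ,
    ∑ n ∈ Ioc 0 N, (if IsUnit (n : ZMod q) then 0 else vonMangoldt n) / (n:ℝ) ≤ C := by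
  obtain ⟨C, hC0, hC⟩ := nonprime_sum_bound
  have hD0 : 0 ≤ ∑ n ∈ Ioc 0 q, vonMangoldt n / (n:ℝ) :=
    Finset.sum_nonneg fun n _ => div_nonneg vonMangoldt_nonneg (Nat.cast_nonneg n)
  refine ⟨C + ∑ n ∈ Ioc 0 q, vonMangoldt n / (n:ℝ), add_nonneg hC0 hD0, fun N => ?_⟩
  have hle : ∀ n ∈ Ioc 0 N, (if IsUnit (n : ZMod q) then 0 else vonMangoldt n) / (n:ℝ) ≤
      (if n.Prime then 0 else vonMangoldt n) / (n:ℝ) +
      (if n ∈ Ioc 0 q then vonMangoldt n / (n:ℝ) else 0) := by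
    intro n hn
    have hn0 := (Finset.mem_Ioc.1 hn).1
    have hv : 0 ≤ vonMangoldt n / (n:ℝ) := div_nonneg vonMangoldt_nonneg (Nat.cast_nonneg n)
    by_cases hp : n.Prime
    · by_cases hu : IsUnit (n : ZMod q)
      · simp only [hp, hu, if_true, zero_div, zero_add]
        split_ifs <;> [exact hv; exact le_rfl]
      · have hdvd : n ∣ q := by
          rw [ZMod.isUnit_iff_coprime] at hu
          by_contra hcon
          exact hu ((Nat.Prime.coprime_iff_not_dvd hp).2 hcon)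
        have hnq : n ≤ q := Nat.le_of_dvd (Nat.pos_of_ne_zero (NeZero.ne q)) hdvd
        simp only [hp, hu, if_true, if_false, zero_div, zero_add, Finset.mem_Ioc, hn0, hnq,
          and_self, le_refl]
    · have h2 : 0 ≤ (if n ∈ Ioc 0 q then vonMangoldt n / (n:ℝ) else 0) := by
        split_ifs <;> [exact hv; exact le_rfl]
      have h3 : (if IsUnit (n : ZMod q) then 0 else vonMangoldt n) / (n:ℝ) ≤
          (if n.Prime then 0 else vonMangoldt n) / (n:ℝ) := by
        simp only [hp, if_false]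
        split_ifs
        · simpa using hv
        · exact le_rfl
      linarith
  refine (Finset.sum_le_sum hle).trans ?_
  rw [Finset.sum_add_distrib]
  refine add_le_add (hC _) ?_
  rw [← Finset.sum_filter]
  refine Finset.sum_le_sum_of_subset_of_nonneg ?_ (fun n _ _ =>
    div_nonneg vonMangoldt_nonneg (Nat.cast_nonneg n))
  intro n hn
  exact (Finset.mem_filter.1 hn).2

/-- **Mertens in arithmetic progressions**, von Mangoldt form. -/
theorem mertens_residueClass {a : ZMod q} (ha : IsUnit a) : ∃ C : ℝ, 0 ≤ C ∧ ∀ N : ℕ, 1 ≤ N →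
    |∑ n ∈ Ioc 0 N, residueClass a n / n - Real.log N / q.totient| ≤ C := by
  classical
  obtain ⟨C1, hC1, hM⟩ := mertens
  obtain ⟨C2, hC2, hU⟩ := nonunit_sum_bound q
  have hφ : (0:ℝ) < q.totient := by exact_mod_cast Nat.totient_pos.2 (Nat.pos_of_ne_zero (NeZero.ne q))
  -- constants for the non-trivial characters
  have hex : ∀ χ : DirichletCharacter ℂ q, ∃ C : ℝ, χ ≠ 1 → ∀ N : ℕ,
      ‖∑ n ∈ Ioc 0 N, χ (n : ZMod q) * (vonMangoldt n : ℂ) * ((n:ℝ)⁻¹ : ℝ)‖ ≤ C := by
    intro χ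
    by_cases h : χ = 1
    · exact ⟨0, fun h' => absurd h h'⟩
    · obtain ⟨C, hC⟩ := twist_bound χ h
      exact ⟨C, fun _ => hC⟩
  choose D hD using hex
  have hD0 : ∀ χ ∈ ({1}ᶜ : Finset (DirichletCharacter ℂ q)), 0 ≤ D χ := by
    intro χ hχ
    have h1 : χ ≠ 1 := by simpa using hχ
    exact (norm_nonneg _).trans (hD χ h1 0)
  have hS0 : 0 ≤ ∑ χ ∈ ({1}ᶜ : Finset (DirichletCharacter ℂ q)), D χ := Finset.sum_nonneg hD0
  refine ⟨(C1 + C2 + ∑ χ ∈ ({1}ᶜ : Finset (DirichletCharacter ℂ q)), D χ) / q.totient,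
    by positivity, fun N hN => ?_⟩
  set T : ℝ := ∑ n ∈ Ioc 0 N, vonMangoldt n / n with hT
  set U : ℝ := ∑ n ∈ Ioc 0 N, (if IsUnit (n : ZMod q) then 0 else vonMangoldt n) / (n:ℝ) with hUdef
  set R : ℝ := ∑ n ∈ Ioc 0 N, residueClass a n / n with hR
  have hU0 : 0 ≤ U := by
    refine Finset.sum_nonneg fun n _ => ?_
    split_ifs
    · simp
    · exact div_nonneg vonMangoldt_nonneg (Nat.cast_nonneg n)
  -- main identity
  have hid : ((q.totient * R : ℝ) : ℂ) =
      ∑ χ : DirichletCharacter ℂ q, χ a⁻¹ *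
        ∑ n ∈ Ioc 0 N, χ (n : ZMod q) * (vonMangoldt n : ℂ) * ((n:ℝ)⁻¹ : ℝ) := by
    have h1 : ∀ n : ℕ, ((q.totient : ℝ) : ℂ) * ((residueClass a n / n : ℝ) : ℂ) =
        ∑ χ : DirichletCharacter ℂ q, χ a⁻¹ *
          (χ (n : ZMod q) * (vonMangoldt n : ℂ) * ((n:ℝ)⁻¹ : ℝ)) := by
      intro n
      have hφ' : (q.totient : ℂ) ≠ 0 := by exact_mod_cast hφ.ne'
      push_cast
      rw [residueClass_apply ha n, mul_div_assoc, ← mul_assoc, mul_inv_cancel₀ hφ', one_mul,
        Finset.sum_div]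
      refine Finset.sum_congr rfl fun χ _ => ?_
      ring
    rw [hR, Complex.ofReal_mul, Complex.ofReal_sum, Finset.mul_sum]
    rw [Finset.sum_congr rfl fun n _ => h1 n, Finset.sum_comm]
    exact Finset.sum_congr rfl fun χ _ => (Finset.mul_sum _ _ _).symm
  have ha' : IsUnit a⁻¹ := isUnit_of_dvd_one ⟨a, (ZMod.inv_mul_of_unit a ha).symm⟩
  have htriv : (1 : DirichletCharacter ℂ q) a⁻¹ *
        ∑ n ∈ Ioc 0 N, (1 : DirichletCharacter ℂ q) (n : ZMod q) * (vonMangoldt n : ℂ) *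
          ((n:ℝ)⁻¹ : ℝ) = ((T - U : ℝ) : ℂ) := by
    rw [MulChar.one_apply ha', one_mul, hT, hUdef, ← Finset.sum_sub_distrib, Complex.ofReal_sum]
    refine Finset.sum_congr rfl fun n _ => ?_
    by_cases hu : IsUnit (n : ZMod q)
    · rw [MulChar.one_apply hu]
      simp [hu, div_eq_mul_inv]
    · rw [MulChar.map_nonunit _ hu]
      simp [hu]
  have hrest : ‖∑ χ ∈ ({1}ᶜ : Finset (DirichletCharacter ℂ q)), χ a⁻¹ *
        ∑ n ∈ Ioc 0 N, χ (n : ZMod q) * (vonMangoldt n : ℂ) * ((n:ℝ)⁻¹ : ℝ)‖ ≤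
      ∑ χ ∈ ({1}ᶜ : Finset (DirichletCharacter ℂ q)), D χ := by
    refine (norm_sum_le _ _).trans (Finset.sum_le_sum fun χ hχ => ?_)
    have h1 : χ ≠ 1 := by simpa using hχ
    rw [norm_mul]
    calc _ ≤ 1 * D χ := mul_le_mul (χ.norm_le_one _) (hD χ h1 N) (norm_nonneg _) zero_le_one
      _ = D χ := one_mul _
  rw [Fintype.sum_eq_add_sum_compl 1, htriv] at hid
  have hdiff : ((q.totient * R - (T - U) : ℝ) : ℂ) =
      ∑ χ ∈ ({1}ᶜ : Finset (DirichletCharacter ℂ q)), χ a⁻¹ *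
        ∑ n ∈ Ioc 0 N, χ (n : ZMod q) * (vonMangoldt n : ℂ) * ((n:ℝ)⁻¹ : ℝ) := by
    rw [Complex.ofReal_sub, hid]; ring
  rw [← hdiff, Complex.norm_real, Real.norm_eq_abs] at hrest
  have hfin : |q.totient * R - Real.log N| ≤
      C1 + C2 + ∑ χ ∈ ({1}ᶜ : Finset (DirichletCharacter ℂ q)), D χ := by
    have e : q.totient * R - Real.log N = (q.totient * R - (T - U)) + (T - Real.log N) - U := by ring
    have h2 := hM N hN
    have h3 := hU N
    rw [abs_le] at hrest h2 ⊢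
    constructor <;> linarith [hrest.1, hrest.2, h2.1, h2.2]
  have : R - Real.log N / q.totient = (q.totient * R - Real.log N) / q.totient := by field_simp
  rw [this, abs_div, abs_of_pos hφ]
  exact div_le_div_of_nonneg_right hfin hφ.le

/-- **Mertens in arithmetic progressions**, primes. -/
theorem mertens_AP {a : ZMod q} (ha : IsUnit a) : ∃ C : ℝ, 0 ≤ C ∧ ∀ N : ℕ, 1 ≤ N →
    |∑ p ∈ (Ioc 0 N).filter (fun p : ℕ => p.Prime ∧ (p : ZMod q) = a), Real.log p / p -
      Real.log N / q.totient| ≤ C := by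
  obtain ⟨C1, hC1, h1⟩ := mertens_residueClass ha
  obtain ⟨C2, hC2, h2⟩ := nonprime_sum_bound
  refine ⟨C1 + C2, add_nonneg hC1 hC2, fun N hN => ?_⟩
  rw [Finset.sum_filter]
  have hsplit : ∑ n ∈ Ioc 0 N, residueClass a n / n =
      ∑ n ∈ Ioc 0 N, (if n.Prime ∧ (n : ZMod q) = a then Real.log n / n else 0) +
      ∑ n ∈ Ioc 0 N, (if n.Prime then 0 else residueClass a n) / (n:ℝ) := by
    rw [← Finset.sum_add_distrib]
    refine Finset.sum_congr rfl fun n _ => ?_
    by_cases hp : n.Prime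
    · by_cases hc : (n : ZMod q) = a
      · simp [hp, hc, vonMangoldt_apply_prime hp]
      · simp [hp, hc]
    · simp [hp]
  have h3 : ∑ n ∈ Ioc 0 N, (if n.Prime then 0 else residueClass a n) / (n:ℝ) ≤ C2 := by
    refine (Finset.sum_le_sum fun n _ => ?_).trans (h2 (Ioc 0 N))
    refine div_le_div_of_nonneg_right ?_ (Nat.cast_nonneg n)
    split_ifs
    · exact le_rfl
    · exact residueClass_le a n
  have h4 : 0 ≤ ∑ n ∈ Ioc 0 N, (if n.Prime then 0 else residueClass a n) / (n:ℝ) := by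
    refine Finset.sum_nonneg fun n _ => div_nonneg ?_ (Nat.cast_nonneg n)
    split_ifs
    · exact le_rfl
    · exact residueClass_nonneg a n
  have h5 := h1 N hN
  rw [hsplit, abs_le] at h5
  rw [abs_le]
  constructor <;> linarith [h5.1, h5.2]

end Pool.Agent.H41.SF
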