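import Mathlib

/-!
Elementary bounds for sums of a non-trivial Dirichlet character `χ` modulo `q`:
partial sums, Abel summation, and `∑_{n ≤ N} χ(n)/n = L(1,χ) + O(1/N)`.
-/

set_option autoImplicit false

namespace Pool.Agent.H41.SF

open Finset

/-- Abel summation identity. -/
lemma abel_identity (a : ℕ → ℂ) (b : ℕ → ℝ) (M : ℕ) : ∀ N, M ≤ N →
    ∑ i ∈ Ico M N, (b i : ℂ) * a i = (b N : ℂ) * ∑ i ∈ Ico M N, a i +
      ∑ i ∈ Ico M N, ((b i - b (i+1) : ℝ) : ℂ) * ∑ j ∈ Ico M (i+1), a j := by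
  intro N hN
  induction N, hN using Nat.le_induction with
  | base => simp
  | succ n hn ih =>
    rw [Finset.sum_Ico_succ_top hn, ih, Finset.sum_Ico_succ_top hn, Finset.sum_Ico_succ_top hn,
      Finset.sum_Ico_succ_top hn]
    push_cast
    ring

/-- Abel summation bound. -/
lemma abel_bound (a : ℕ → ℂ) (b : ℕ → ℝ) (M : ℕ) (B : ℝ)
    (hb : ∀ n, M ≤ n → b (n+1) ≤ b n) (hb0 : ∀ n, M ≤ n → 0 ≤ b n)
    (hA : ∀ k, ‖∑ i ∈ Ico M k, a i‖ ≤ B) (N : ℕ) (hN : M ≤ N) :
    ‖∑ i ∈ Ico M N, (b i : ℂ) * a i‖ ≤ B * b M := by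
  rw [abel_identity a b M N hN]
  have h1 : ‖(b N : ℂ) * ∑ i ∈ Ico M N, a i‖ ≤ b N * B := by
    rw [norm_mul, Complex.norm_real, Real.norm_of_nonneg (hb0 N hN)]
    exact mul_le_mul_of_nonneg_left (hA N) (hb0 N hN)
  have h2 : ‖∑ i ∈ Ico M N, ((b i - b (i+1) : ℝ) : ℂ) * ∑ j ∈ Ico M (i+1), a j‖ ≤
      ∑ i ∈ Ico M N, (b i - b (i+1)) * B := by
    refine (norm_sum_le _ _).trans (Finset.sum_le_sum fun i hi => ?_)
    have hi' := (Finset.mem_Ico.1 hi).1
    have h0 : 0 ≤ b i - b (i+1) := sub_nonneg.2 (hb i hi')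
    rw [norm_mul, Complex.norm_real, Real.norm_of_nonneg h0]
    exact mul_le_mul_of_nonneg_left (hA _) h0
  have h3 : ∑ i ∈ Ico M N, (b i - b (i+1)) = b M - b N := by
    have : ∀ N, M ≤ N → ∑ i ∈ Ico M N, (b i - b (i+1)) = b M - b N := by
      intro N hN
      induction N, hN using Nat.le_induction with
      | base => simp
      | succ n hn ih => rw [Finset.sum_Ico_succ_top hn, ih]; ring
    exact this N hN
  rw [← Finset.sum_mul, h3] at h2
  refine (norm_add_le _ _).trans ((add_le_add h1 h2).trans (le_of_eq ?_))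
  ring

section char

variable {q : ℕ} [NeZero q]

lemma sum_range_zmod (f : ZMod q → ℂ) : ∑ i ∈ range q, f (i : ZMod q) = ∑ x : ZMod q, f x := by
  refine Finset.sum_nbij' (fun i => (i : ZMod q)) (fun x => x.val) ?_ ?_ ?_ ?_ ?_
  · intro a _; exact Finset.mem_univ _
  · intro a _; exact Finset.mem_range.2 (ZMod.val_lt a)
  · intro a ha; exact ZMod.val_cast_of_lt (Finset.mem_range.1 ha)
  · intro a _; exact ZMod.natCast_zmod_val a
  · intro a _; rfl

lemma sum_block (χ : DirichletCharacter ℂ q) (hχ : χ ≠ 1) (c : ℕ) :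
    ∑ i ∈ range q, χ ((c + i : ℕ) : ZMod q) = 0 := by
  have h := sum_range_zmod (q := q) (fun x => χ ((c : ZMod q) + x))
  have h2 : ∑ x : ZMod q, χ ((c : ZMod q) + x) = ∑ x : ZMod q, χ x :=
    Equiv.sum_comp (Equiv.addLeft (c : ZMod q)) (fun x => χ x)
  rw [h2, MulChar.sum_eq_zero_of_ne_one hχ] at h
  rw [← h]
  exact Finset.sum_congr rfl fun i _ => by push_cast; rfl

lemma norm_sum_shift_le (χ : DirichletCharacter ℂ q) (hχ : χ ≠ 1) (M : ℕ) :
    ∀ L : ℕ, ‖∑ i ∈ range L, χ ((M + i : ℕ) : ZMod q)‖ ≤ q := by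
  intro L
  induction L using Nat.strong_induction_on with
  | _ L ih =>
    rcases lt_or_ge L q with h | h
    · refine (norm_sum_le _ _).trans ?_
      refine (Finset.sum_le_sum (g := fun _ => (1:ℝ)) fun i _ => χ.norm_le_one _).trans ?_
      simp only [sum_const, card_range, nsmul_eq_mul, mul_one]
      exact_mod_cast h.le
    · obtain ⟨L', rfl⟩ := Nat.exists_eq_add_of_le' h
      rw [Finset.sum_range_add]
      have h2 := sum_block χ hχ (M + L')
      simp only [← add_assoc]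
      rw [h2, add_zero]
      have hq : 0 < q := Nat.pos_of_ne_zero (NeZero.ne q)
      exact ih L' (by omega)

lemma norm_sum_Ico_le (χ : DirichletCharacter ℂ q) (hχ : χ ≠ 1) (M k : ℕ) :
    ‖∑ i ∈ Ico M k, χ (i : ZMod q)‖ ≤ q := by
  rw [Finset.sum_Ico_eq_sum_range]
  exact norm_sum_shift_le χ hχ M (k - M)

end char

end Pool.Agent.H41.SF
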