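import Pool.Agent.H41.SF.Mertens

/-!
Doubling property of the sequence of primes in an arithmetic progression:
`p_{2n} ≤ D p_n`.
-/

set_option autoImplicit false

namespace Pool.Agent.H41.SF

open Finset Filter Topology

/-- Short windows contain the expected order of magnitude of primes of the progression. -/
theorem window_lower {q : ℕ} [NeZero q] {a : ZMod q} (ha : IsUnit a) :
    ∃ B : ℕ, 2 ≤ B ∧ ∀ y : ℕ, 3 ≤ y → (y:ℝ) / Real.log y ≤
      (((Ioc y (B*y)).filter (fun p : ℕ => p.Prime ∧ (p : ZMod q) = a)).card : ℝ) := by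
  obtain ⟨C, hC0, hC⟩ := mertens_AP ha
  have hφ : (0:ℝ) < q.totient := by exact_mod_cast Nat.totient_pos.2 (Nat.pos_of_ne_zero (NeZero.ne q))
  refine ⟨⌈Real.exp (q.totient * (1 + 2*C))⌉₊ + 2, by omega, fun y hy => ?_⟩
  set B := ⌈Real.exp (q.totient * (1 + 2*C))⌉₊ + 2 with hB
  have hB0 : (0:ℝ) < B := by rw [hB]; positivity
  have hBlog : q.totient * (1 + 2*C) ≤ Real.log B := by
    rw [Real.le_log_iff_exp_le hB0, hB]
    have := Nat.le_ceil (Real.exp (q.totient * (1 + 2*C)))
    push_cast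
    linarith
  have hy3 : (3:ℝ) ≤ y := by exact_mod_cast hy
  have hy0 : (0:ℝ) < y := by linarith
  have hlogy : 0 < Real.log y := Real.log_pos (by linarith)
  have hyB : y ≤ B * y := Nat.le_mul_of_pos_left y (by omega)
  have h1 := hC y (by omega)
  have h2 := hC (B*y) (by omega)
  rw [Finset.sum_filter] at h1 h2
  rw [← Finset.sum_Ioc_consecutive _ (Nat.zero_le y) hyB, ← Finset.sum_filter (s := Ioc y (B*y))] at h2
  set S := ∑ p ∈ (Ioc y (B*y)).filter (fun p : ℕ => p.Prime ∧ (p : ZMod q) = a), Real.log p / p with hS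
  have hlog : Real.log ((B*y : ℕ) : ℝ) = Real.log B + Real.log y := by
    push_cast
    exact Real.log_mul hB0.ne' hy0.ne'
  rw [hlog, add_div] at h2
  rw [abs_le] at h1 h2
  have hS1 : 1 ≤ S := by
    have h3 : 1 + 2 * C ≤ Real.log B / q.totient := by
      rw [le_div_iff₀ hφ]; linarith
    linarith [h1.1, h1.2, h2.1, h2.2]
  have hS2 : S ≤ (((Ioc y (B*y)).filter (fun p : ℕ => p.Prime ∧ (p : ZMod q) = a)).card : ℝ) *
      (Real.log y / y) := by
    rw [hS, ← nsmul_eq_mul]
    refine Finset.sum_le_card_nsmul _ _ _ fun p hp => ?_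
    have hp' := (Finset.mem_Ioc.1 (Finset.mem_filter.1 hp).1).1
    have hyp : (y:ℝ) ≤ p := by exact_mod_cast hp'.le
    have he : Real.exp 1 ≤ (y:ℝ) := (Real.exp_one_lt_d9.le.trans (by norm_num)).trans hy3
    exact Real.log_div_self_antitoneOn he (he.trans hyp) hyp
  rw [div_le_iff₀ hlogy]
  have h5 : (1:ℝ) ≤ (((Ioc y (B*y)).filter (fun p : ℕ => p.Prime ∧ (p : ZMod q) = a)).card : ℝ) *
      (Real.log y / y) := hS1.trans hS2
  rw [← mul_div_assoc, le_div_iff₀ hy0] at h5
  linarith

/-- The defining predicate of the progression, exactly as in the frozen statement. -/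
abbrev PP (r q : ℕ) : ℕ → Prop := fun m : ℕ => m.Prime ∧ m % q = r

lemma PP_iff {r q : ℕ} (h : r < q) (p : ℕ) :
    (p.Prime ∧ p % q = r) ↔ (p.Prime ∧ (p : ZMod q) = (r : ZMod q)) := by
  have : (p : ZMod q) = (r : ZMod q) ↔ p % q = r := by
    rw [ZMod.natCast_eq_natCast_iff]
    unfold Nat.ModEq
    rw [Nat.mod_eq_of_lt h]
  rw [this]

lemma PP_infinite {r q : ℕ} (h : r < q) (hco : Nat.Coprime r q) :
    (Set.ofPred (PP r q)).Infinite := by
  have : NeZero q := ⟨by omega⟩
  have hu : IsUnit (r : ZMod q) := (ZMod.isUnit_iff_coprime r q).2 hco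
  have := Nat.infinite_setOfPred_prime_and_eq_mod hu
  refine this.mono ?_
  intro p hp
  exact (PP_iff h p).2 hp

lemma count_window (r q y z : ℕ) (hyz : y ≤ z) :
    Nat.count (PP r q) (z+1) = Nat.count (PP r q) (y+1) +
      ((Ioc y z).filter (PP r q)).card := by
  rw [Nat.count_eq_card_filter_range, Nat.count_eq_card_filter_range,
    ← Finset.card_union_of_disjoint]
  · congr 1
    rw [← Finset.filter_union]
    congr 1
    ext m
    simp only [Finset.mem_range, Finset.mem_union, Finset.mem_Ioc]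
    omega
  · rw [Finset.disjoint_left]
    intro m h1 h2
    have h1' := Finset.mem_range.1 (Finset.mem_filter.1 h1).1
    have h2' := Finset.mem_Ioc.1 (Finset.mem_filter.1 h2).1
    omega

lemma pi_bound : ∃ A : ℝ, 0 < A ∧ ∀ y : ℕ, 2 ≤ y → (Nat.primeCounting y : ℝ) ≤ A * (y / Real.log y) := by
  refine ⟨2 * Real.log 4 + 2, by positivity, fun y hy => ?_⟩
  have hy2 : (2:ℝ) ≤ y := by exact_mod_cast hy
  have hy0 : (0:ℝ) < y := by linarith
  have h := Chebyshev.pi_le_log4_mul_div (x := (y:ℝ)) (by linarith)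
  rw [Nat.floor_natCast] at h
  have hlog : 0 < Real.log y := Real.log_pos (by linarith)
  have hsq : 0 < √(y:ℝ) := Real.sqrt_pos.2 hy0
  have h1 : Real.log √(y:ℝ) = Real.log y / 2 := Real.log_sqrt hy0.le
  have h2 : Real.log √(y:ℝ) ≤ √(y:ℝ) := by
    have := Real.log_le_sub_one_of_pos hsq
    linarith
  have h3 : √(y:ℝ) ≤ 2 * (y / Real.log y) := by
    rw [← mul_div_assoc, le_div_iff₀ hlog]
    have h4 : Real.log y ≤ 2 * √(y:ℝ) := by rw [h1] at h2; linarith
    calc √(y:ℝ) * Real.log y ≤ √(y:ℝ) * (2 * √(y:ℝ)) := mul_le_mul_of_nonneg_left h4 hsq.le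
      _ = 2 * (√(y:ℝ) * √(y:ℝ)) := by ring
      _ = 2 * y := by rw [Real.mul_self_sqrt hy0.le]
  rw [h1] at h
  have h5 : Real.log 4 * y / (Real.log y / 2) = 2 * Real.log 4 * (y / Real.log y) := by
    field_simp
  rw [h5] at h
  linarith

/-- **Doubling**: `p_{2n} ≤ D p_n`. -/
theorem doubling {r q : ℕ} (h : r < q) (hco : Nat.Coprime r q) :
    ∃ D : ℕ, 2 ≤ D ∧ ∀ n : ℕ, 1 ≤ n →
      Nat.nth (PP r q) (2 * n - 1) ≤ D * Nat.nth (PP r q) (n - 1) := by
  have : NeZero q := ⟨by omega⟩
  have hu : IsUnit (r : ZMod q) := (ZMod.isUnit_iff_coprime r q).2 hco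
  have hinf := PP_infinite h hco
  obtain ⟨B, hB2, hB⟩ := window_lower hu
  obtain ⟨A, hA0, hA⟩ := pi_bound
  set K := ⌈2 * A⌉₊ + 1 with hK
  have hKA : 2 * A ≤ K := by
    rw [hK]; push_cast
    have := Nat.le_ceil (2*A)
    linarith
  set Y := K + 3 with hY
  have hmono := Nat.nth_strictMono hinf
  refine ⟨B * K + Nat.nth (PP r q) (2 * Y - 1) + 2, by omega, fun n hn => ?_⟩
  set y := Nat.nth (PP r q) (n - 1) with hy
  have hyp : PP r q y := Nat.nth_mem_of_infinite hinf _
  have hy2 : 2 ≤ y := hyp.1.two_le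
  rcases lt_or_ge y Y with hlt | hge
  · -- small `y`
    have hny : n - 1 ≤ y := hmono.le_apply
    have h1 : Nat.nth (PP r q) (2 * n - 1) ≤ Nat.nth (PP r q) (2 * Y - 1) :=
      hmono.monotone (by omega)
    calc Nat.nth (PP r q) (2 * n - 1) ≤ Nat.nth (PP r q) (2 * Y - 1) * 1 := by omega
      _ ≤ (B * K + Nat.nth (PP r q) (2 * Y - 1) + 2) * y :=
          Nat.mul_le_mul (by omega) (by omega)
  · -- large `y`
    have hcount : Nat.count (PP r q) (y + 1) = n := by
      rw [hy, Nat.count_nth_succ_of_infinite hinf]; omega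
    have hyR : (2:ℝ) ≤ y := by exact_mod_cast hy2
    have hy0 : (0:ℝ) < y := by linarith
    have hlogy : 0 < Real.log y := Real.log_pos (by linarith)
    have hnpi : (n:ℝ) ≤ A * (y / Real.log y) := by
      refine le_trans ?_ (hA y hy2)
      have : Nat.count (PP r q) (y + 1) ≤ Nat.primeCounting y := by
        rw [Nat.primeCounting, Nat.primeCounting', Nat.count_eq_card_filter_range,
          Nat.count_eq_card_filter_range]
        refine Finset.card_le_card ?_
        intro m hm
        rw [Finset.mem_filter] at hm ⊢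
        exact ⟨hm.1, hm.2.1⟩
      rw [hcount] at this
      exact_mod_cast this
    have hwin := hB (K*y) (by nlinarith)
    have hfil : (Ioc (K*y) (B*(K*y))).filter (fun p : ℕ => p.Prime ∧ (p : ZMod q) = (r : ZMod q)) =
        (Ioc (K*y) (B*(K*y))).filter (PP r q) := by
      refine Finset.filter_congr fun p _ => ?_
      exact (PP_iff h p).symm
    rw [hfil] at hwin
    have hKpos : (0:ℝ) < K := by rw [hK]; positivity
    have hKy : (K:ℝ) ≤ y := by exact_mod_cast (by omega : K ≤ y)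
    have hlogKy : Real.log ((K*y : ℕ) : ℝ) ≤ 2 * Real.log y := by
      push_cast
      rw [Real.log_mul hKpos.ne' hy0.ne']
      have := Real.log_le_log hKpos hKy
      linarith
    have hK1 : (1:ℝ) ≤ K := by rw [hK]; push_cast; linarith [Nat.cast_nonneg (α := ℝ) ⌈2*A⌉₊]
    have hlogKypos : 0 < Real.log ((K*y : ℕ) : ℝ) := by
      apply Real.log_pos
      push_cast
      nlinarith
    have hwin2 : (n:ℝ) ≤ (((Ioc (K*y) (B*(K*y))).filter (PP r q)).card : ℝ) := by
      refine hnpi.trans (le_trans ?_ hwin)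
      rw [← mul_div_assoc, div_le_div_iff₀ hlogy hlogKypos]
      push_cast at hlogKy ⊢
      calc A * y * Real.log (K*y) ≤ A * y * (2 * Real.log y) :=
            mul_le_mul_of_nonneg_left hlogKy (by positivity)
        _ = (2 * A) * (y * Real.log y) := by ring
        _ ≤ K * (y * Real.log y) := mul_le_mul_of_nonneg_right hKA (by positivity)
        _ = K * y * Real.log y := by ring
    have hwin3 : n ≤ ((Ioc (K*y) (B*(K*y))).filter (PP r q)).card := by exact_mod_cast hwin2
    have hle1 : y ≤ K * y := Nat.le_mul_of_pos_left y (by omega)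
    have hle2 : K * y ≤ B * (K * y) := Nat.le_mul_of_pos_left _ (by omega)
    have hc1 := count_window r q (K*y) (B*(K*y)) hle2
    have hc2 : Nat.count (PP r q) (y+1) ≤ Nat.count (PP r q) (K*y+1) :=
      Nat.count_monotone _ (by omega)
    have hfin : 2 * n - 1 < Nat.count (PP r q) (B*(K*y)+1) := by omega
    have := Nat.nth_lt_of_lt_count hfin
    calc Nat.nth (PP r q) (2 * n - 1) ≤ B * (K * y) := by omega
      _ = B * K * y := by ring
      _ ≤ (B * K + Nat.nth (PP r q) (2 * Y - 1) + 2) * y := Nat.mul_le_mul_right y (by omega)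

end Pool.Agent.H41.SF
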