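import Pool.Agent.H41.SF.CharSum

/-!
`∑_{1 ≤ n < N} χ(n)/n = L(1,χ) + O(q/N)` for non-trivial `χ` modulo `q`.
-/

set_option autoImplicit false

namespace Pool.Agent.H41.SF

open Finset Filter Topology

variable {q : ℕ} [NeZero q]

lemma LFunction_approx_rpow (χ : DirichletCharacter ℂ q) (hχ : χ ≠ 1) {s : ℝ} (hs : 1 < s)
    {N : ℕ} (hN : 1 ≤ N) :
    ‖DirichletCharacter.LFunction χ s -
      ∑ n ∈ Ico 1 N, (((n:ℝ) ^ (-s) : ℝ) : ℂ) * χ (n : ZMod q)‖ ≤ q / N := by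
  have hsum : LSeriesSummable (fun n => χ (n : ZMod q)) (s : ℂ) :=
    DirichletCharacter.LSeriesSummable_of_one_lt_re χ (by simpa using hs)
  have hL : DirichletCharacter.LFunction χ s = LSeries (fun n => χ (n : ZMod q)) (s : ℂ) :=
    DirichletCharacter.LFunction_eq_LSeries χ (by simpa using hs)
  have hterm : ∀ n : ℕ, n ≠ 0 → LSeries.term (fun n => χ (n : ZMod q)) (s : ℂ) n =
      (((n:ℝ) ^ (-s) : ℝ) : ℂ) * χ (n : ZMod q) := by
    intro n hn
    rw [LSeries.term_of_ne_zero hn, Complex.ofReal_cpow (Nat.cast_nonneg n)]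
    push_cast
    rw [Complex.cpow_neg, div_eq_mul_inv, mul_comm]
  have htend : Tendsto (fun K => ∑ n ∈ range K, LSeries.term (fun n => χ (n : ZMod q)) (s : ℂ) n)
      atTop (𝓝 (LSeries (fun n => χ (n : ZMod q)) (s : ℂ))) := hsum.hasSum.tendsto_sum_nat
  have hrange : ∀ K, 1 ≤ K → ∑ n ∈ range K, LSeries.term (fun n => χ (n : ZMod q)) (s : ℂ) n =
      ∑ n ∈ Ico 1 K, (((n:ℝ) ^ (-s) : ℝ) : ℂ) * χ (n : ZMod q) := by
    intro K hK
    rw [Finset.range_eq_Ico, Finset.sum_eq_sum_Ico_succ_bot (by omega)]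
    rw [LSeries.term_zero, zero_add]
    refine Finset.sum_congr rfl fun n hn => ?_
    have := (Finset.mem_Ico.1 hn).1
    exact hterm n (by omega)
  have hb : ∀ n : ℕ, N ≤ n → ((n+1 : ℕ):ℝ) ^ (-s) ≤ (n:ℝ) ^ (-s) := by
    intro n hn
    have hn0 : (0:ℝ) < n := by exact_mod_cast (by omega : 0 < n)
    exact Real.rpow_le_rpow_of_nonpos hn0 (by push_cast; linarith) (by linarith)
  have hb0 : ∀ n : ℕ, N ≤ n → 0 ≤ (n:ℝ) ^ (-s) := fun n _ => Real.rpow_nonneg (Nat.cast_nonneg n) _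
  have hbN : (N:ℝ) ^ (-s) ≤ 1 / N := by
    have hN0 : (1:ℝ) ≤ N := by exact_mod_cast hN
    rw [one_div, ← Real.rpow_neg_one]
    exact Real.rpow_le_rpow_of_exponent_le hN0 (by linarith)
  have hdiff : ∀ K, N ≤ K → ‖∑ n ∈ range K, LSeries.term (fun n => χ (n : ZMod q)) (s : ℂ) n -
      ∑ n ∈ Ico 1 N, (((n:ℝ) ^ (-s) : ℝ) : ℂ) * χ (n : ZMod q)‖ ≤ q / N := by
    intro K hK
    rw [hrange K (by omega), ← Finset.sum_Ico_consecutive _ hN hK, add_sub_cancel_left]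
    refine (abel_bound (fun n => χ (n : ZMod q)) (fun n => (n:ℝ) ^ (-s)) N q hb hb0
      (fun k => norm_sum_Ico_le χ hχ N k) K hK).trans ?_
    have : (q:ℝ) * (N:ℝ) ^ (-s) ≤ q * (1 / N) :=
      mul_le_mul_of_nonneg_left hbN (Nat.cast_nonneg q)
    refine this.trans (le_of_eq ?_)
    ring
  rw [hL]
  have := (htend.sub_const (∑ n ∈ Ico 1 N, (((n:ℝ) ^ (-s) : ℝ) : ℂ) * χ (n : ZMod q))).norm
  refine le_of_tendsto this ?_
  filter_upwards [eventually_ge_atTop N] with K hK using hdiff K hK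

/-- `∑_{1 ≤ n < N} χ(n)/n = L(1,χ) + O(q/N)`. -/
theorem LFunction_one_approx (χ : DirichletCharacter ℂ q) (hχ : χ ≠ 1) {N : ℕ} (hN : 1 ≤ N) :
    ‖DirichletCharacter.LFunction χ 1 -
      ∑ n ∈ Ico 1 N, (((n:ℝ)⁻¹ : ℝ) : ℂ) * χ (n : ZMod q)‖ ≤ q / N := by
  have hcont : Tendsto (fun s : ℝ => DirichletCharacter.LFunction χ (s : ℂ)) (𝓝[>] (1:ℝ))
      (𝓝 (DirichletCharacter.LFunction χ 1)) := by
    have h1 : Continuous (fun s : ℝ => DirichletCharacter.LFunction χ (s : ℂ)) :=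
      (DirichletCharacter.differentiable_LFunction hχ).continuous.comp Complex.continuous_ofReal
    have h2 := h1.tendsto 1
    simp only [Complex.ofReal_one] at h2
    exact h2.mono_left nhdsWithin_le_nhds
  have hfin : Tendsto (fun s : ℝ => ∑ n ∈ Ico 1 N, (((n:ℝ) ^ (-s) : ℝ) : ℂ) * χ (n : ZMod q))
      (𝓝[>] (1:ℝ)) (𝓝 (∑ n ∈ Ico 1 N, (((n:ℝ)⁻¹ : ℝ) : ℂ) * χ (n : ZMod q))) := by
    refine tendsto_finsetSum _ fun n hn => ?_
    have hn1 := (Finset.mem_Ico.1 hn).1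
    have hn0 : (0:ℝ) < n := by exact_mod_cast hn1
    refine Tendsto.mul_const _ ?_
    have h1 : Continuous (fun s : ℝ => (((n:ℝ) ^ (-s) : ℝ) : ℂ)) := by
      refine Complex.continuous_ofReal.comp ?_
      exact Continuous.rpow continuous_const continuous_neg (fun _ => Or.inl hn0.ne')
    have h2 := h1.tendsto 1
    rw [Real.rpow_neg_one] at h2
    exact h2.mono_left nhdsWithin_le_nhds
  refine le_of_tendsto (hcont.sub hfin).norm ?_
  filter_upwards [self_mem_nhdsWithin] with s hs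
  exact LFunction_approx_rpow χ hχ hs hN

end Pool.Agent.H41.SF
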