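import Pool.Agent.H41.SF.LOne

/-!
`∑_{n ≤ N} χ(n) Λ(n) / n = O(1)` for a non-trivial Dirichlet character `χ`.
-/

set_option autoImplicit false

namespace Pool.Agent.H41.SF

open Finset Filter Topology ArithmeticFunction

variable {q : ℕ} [NeZero q]

lemma psi_bound : ∃ C : ℝ, 0 < C ∧ ∀ N : ℕ, ∑ n ∈ Ioc 0 N, vonMangoldt n ≤ C * N := by
  refine ⟨Real.log 4 + 4, by positivity, fun N => ?_⟩
  have h := Chebyshev.psi_le_const_mul_self (x := (N:ℝ)) (Nat.cast_nonneg N)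
  rw [Chebyshev.psi] at h
  simpa using h

/-- The twisted von Mangoldt function over `n`. -/
noncomputable def twF (χ : DirichletCharacter ℂ q) : ArithmeticFunction ℂ :=
  ⟨fun n => χ (n : ZMod q) * (vonMangoldt n : ℂ) * ((n:ℝ)⁻¹ : ℝ), by simp⟩

/-- The character over `n`. -/
noncomputable def twG (χ : DirichletCharacter ℂ q) : ArithmeticFunction ℂ :=
  ⟨fun n => (((n:ℝ)⁻¹ : ℝ) : ℂ) * χ (n : ZMod q), by simp⟩

omit [NeZero q] in
lemma twF_apply (χ : DirichletCharacter ℂ q) (n : ℕ) :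
    twF χ n = χ (n : ZMod q) * (vonMangoldt n : ℂ) * ((n:ℝ)⁻¹ : ℝ) := rfl

omit [NeZero q] in
lemma twG_apply (χ : DirichletCharacter ℂ q) (n : ℕ) :
    twG χ n = (((n:ℝ)⁻¹ : ℝ) : ℂ) * χ (n : ZMod q) := rfl

omit [NeZero q] in
lemma twF_mul_twG (χ : DirichletCharacter ℂ q) (n : ℕ) :
    (twF χ * twG χ) n = ((Real.log n / n : ℝ) : ℂ) * χ (n : ZMod q) := by
  rw [ArithmeticFunction.mul_apply]
  have h1 : ∀ x ∈ n.divisorsAntidiagonal, twF χ x.1 * twG χ x.2 =
      ((((n:ℝ)⁻¹ : ℝ) : ℂ) * χ (n : ZMod q)) * ((vonMangoldt x.1 : ℝ) : ℂ) := by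
    intro x hx
    have hx1 := (Nat.mem_divisorsAntidiagonal.1 hx).1
    rw [twF_apply, twG_apply, ← hx1]
    push_cast
    rw [map_mul, mul_inv]
    ring
  have h2 : ∑ i ∈ n.divisorsAntidiagonal, vonMangoldt i.1 = Real.log n := by
    rw [← vonMangoldt_sum]
    exact Nat.sum_divisorsAntidiagonal (f := fun i _ => vonMangoldt i)
  rw [Finset.sum_congr rfl h1, ← Finset.mul_sum, ← Complex.ofReal_sum, h2]
  push_cast
  ring

lemma log_div_sum_bound (χ : DirichletCharacter ℂ q) (hχ : χ ≠ 1) (N : ℕ) :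
    ‖∑ n ∈ Ioc 0 N, ((Real.log n / n : ℝ) : ℂ) * χ (n : ZMod q)‖ ≤ q * (Real.log 3 / 3) + 1 := by
  have hpos : 0 ≤ (q:ℝ) * (Real.log 3 / 3) := by
    have := Real.log_nonneg (by norm_num : (1:ℝ) ≤ 3)
    positivity
  have hl2 : Real.log 2 / 2 ≤ 1 := by
    have := Real.log_two_lt_d9
    linarith
  have hterm : ∀ n : ℕ, n ≤ 2 → ‖((Real.log n / n : ℝ) : ℂ) * χ (n : ZMod q)‖ ≤
      if n = 2 then Real.log 2 / 2 else 0 := by
    intro n hn
    interval_cases n
    · simp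
    · simp
    · rw [norm_mul, Complex.norm_real, Real.norm_of_nonneg (by
        have := Real.log_nonneg (by norm_num : (1:ℝ) ≤ 2)
        norm_num
        positivity)]
      have := χ.norm_le_one (((2:ℕ)) : ZMod q)
      have h2 : 0 ≤ Real.log 2 / 2 := by
        have := Real.log_nonneg (by norm_num : (1:ℝ) ≤ 2)
        positivity
      simp only [if_true]
      push_cast at this ⊢
      exact mul_le_of_le_one_right h2 this
  rcases le_or_gt N 2 with hN | hN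
  · refine (norm_sum_le _ _).trans ?_
    have : ∑ n ∈ Ioc 0 N, ‖((Real.log n / n : ℝ) : ℂ) * χ (n : ZMod q)‖ ≤
        ∑ n ∈ Ioc 0 N, if n = 2 then Real.log 2 / 2 else 0 :=
      Finset.sum_le_sum fun n hn => hterm n ((Finset.mem_Ioc.1 hn).2.trans hN)
    refine this.trans ?_
    rw [Finset.sum_ite_eq']
    split_ifs <;> linarith
  · have e1 : Ioc 0 N = Ico 1 (N+1) := by ext; simp; omega
    rw [e1, ← Finset.sum_Ico_consecutive _ (by norm_num : 1 ≤ 3) (by omega : 3 ≤ N+1)]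
    refine (norm_add_le _ _).trans ?_
    have h1 : ‖∑ n ∈ Ico (1:ℕ) 3, ((Real.log n / n : ℝ) : ℂ) * χ (n : ZMod q)‖ ≤ 1 := by
      refine (norm_sum_le _ _).trans ?_
      have : ∑ n ∈ Ico (1:ℕ) 3, ‖((Real.log n / n : ℝ) : ℂ) * χ (n : ZMod q)‖ ≤
          ∑ n ∈ Ico (1:ℕ) 3, if n = 2 then Real.log 2 / 2 else 0 :=
        Finset.sum_le_sum fun n hn => hterm n (by have := (Finset.mem_Ico.1 hn).2; omega)
      refine this.trans ?_
      rw [Finset.sum_ite_eq']
      split_ifs <;> linarith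
    have h2 : ‖∑ n ∈ Ico 3 (N+1), ((Real.log n / n : ℝ) : ℂ) * χ (n : ZMod q)‖ ≤
        q * (Real.log (3:ℕ) / (3:ℕ)) := by
      refine abel_bound (fun n => χ (n : ZMod q)) (fun n => Real.log n / n) 3 q ?_ ?_
        (fun k => norm_sum_Ico_le χ hχ 3 k) (N+1) (by omega)
      · intro n hn
        have hn' : (3:ℝ) ≤ n := by exact_mod_cast hn
        have he : Real.exp 1 ≤ (n:ℝ) := (Real.exp_one_lt_d9.le.trans (by norm_num)).trans hn'
        exact Real.log_div_self_antitoneOn he (he.trans (by push_cast; linarith))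
          (by push_cast; linarith)
      · intro n hn
        exact div_nonneg (Real.log_natCast_nonneg n) (Nat.cast_nonneg n)
    have h3 : (q:ℝ) * (Real.log (3:ℕ) / (3:ℕ)) = q * (Real.log 3 / 3) := by norm_num
    rw [h3] at h2
    linarith

/-- **Mertens type bound for characters.** -/
theorem twist_bound (χ : DirichletCharacter ℂ q) (hχ : χ ≠ 1) :
    ∃ C : ℝ, ∀ N : ℕ, ‖∑ n ∈ Ioc 0 N, χ (n : ZMod q) * (vonMangoldt n : ℂ) * ((n:ℝ)⁻¹ : ℝ)‖ ≤ C := by
  obtain ⟨K, hK0, hK⟩ := psi_bound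
  set L := DirichletCharacter.LFunction χ 1 with hL
  have hL0 : L ≠ 0 := DirichletCharacter.LFunction_apply_one_ne_zero hχ
  have hLpos : 0 < ‖L‖ := norm_pos_iff.2 hL0
  refine ⟨(q * (Real.log 3 / 3) + 1 + q * K) / ‖L‖, fun N => ?_⟩
  rw [le_div_iff₀ hLpos]
  have h1 : ∑ n ∈ Ioc 0 N, (twF χ * twG χ) n =
      ∑ n ∈ Ioc 0 N, twF χ n * ∑ m ∈ Ioc 0 (N / n), twG χ m :=
    sum_Ioc_mul_eq_sum_sum _ _ _
  have h2 : ∑ n ∈ Ioc 0 N, (twF χ * twG χ) n =
      ∑ n ∈ Ioc 0 N, ((Real.log n / n : ℝ) : ℂ) * χ (n : ZMod q) :=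
    Finset.sum_congr rfl fun n _ => twF_mul_twG χ n
  have h3 : (∑ n ∈ Ioc 0 N, twF χ n) * L =
      ∑ n ∈ Ioc 0 N, ((Real.log n / n : ℝ) : ℂ) * χ (n : ZMod q) +
      ∑ n ∈ Ioc 0 N, twF χ n * (L - ∑ m ∈ Ioc 0 (N / n), twG χ m) := by
    rw [← h2, h1, Finset.sum_mul, ← Finset.sum_add_distrib]
    refine Finset.sum_congr rfl fun n _ => ?_
    ring
  have h4 : ‖∑ n ∈ Ioc 0 N, twF χ n * (L - ∑ m ∈ Ioc 0 (N / n), twG χ m)‖ ≤ q * K := by
    refine (norm_sum_le _ _).trans ?_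
    have hb : ∀ n ∈ Ioc 0 N, ‖twF χ n * (L - ∑ m ∈ Ioc 0 (N / n), twG χ m)‖ ≤
        vonMangoldt n * (q / N) := by
      intro n hn
      obtain ⟨hn0, hnN⟩ := Finset.mem_Ioc.1 hn
      have hn0' : (0:ℝ) < n := by exact_mod_cast hn0
      have hN0 : (0:ℝ) < N := by exact_mod_cast (lt_of_lt_of_le hn0 hnN)
      have e1 : Ioc 0 (N / n) = Ico 1 (N / n + 1) := by
        generalize N / n = k
        ext; simp; omega
      have hLa := LFunction_one_approx χ hχ (N := N / n + 1) (Nat.succ_pos _)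
      have hLa' : ‖L - ∑ m ∈ Ioc 0 (N / n), twG χ m‖ ≤ q * n / N := by
        rw [e1]
        refine hLa.trans ?_
        have hq0 : (0:ℝ) ≤ q := Nat.cast_nonneg q
        rw [div_le_div_iff₀ (by positivity) hN0]
        have hdiv : (N:ℝ) ≤ n * ((N / n + 1 : ℕ) : ℝ) := by
          have := Nat.lt_mul_div_succ N hn0
          exact_mod_cast this.le
        calc (q:ℝ) * N ≤ q * (n * ((N / n + 1 : ℕ) : ℝ)) := mul_le_mul_of_nonneg_left hdiv hq0
          _ = q * n * ((N / n + 1 : ℕ) : ℝ) := by ring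
      have hF : ‖twF χ n‖ ≤ vonMangoldt n / n := by
        rw [twF_apply, norm_mul, norm_mul, Complex.norm_real, Complex.norm_real,
          Real.norm_of_nonneg vonMangoldt_nonneg, Real.norm_of_nonneg (by positivity), div_eq_mul_inv]
        refine mul_le_mul_of_nonneg_right ?_ (by positivity)
        exact mul_le_of_le_one_left vonMangoldt_nonneg (χ.norm_le_one _)
      rw [norm_mul]
      calc ‖twF χ n‖ * ‖L - ∑ m ∈ Ioc 0 (N / n), twG χ m‖
          ≤ (vonMangoldt n / n) * (q * n / N) :=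
            mul_le_mul hF hLa' (norm_nonneg _) (div_nonneg vonMangoldt_nonneg hn0'.le)
        _ = vonMangoldt n * (q / N) := by field_simp
    refine (Finset.sum_le_sum hb).trans ?_
    rw [← Finset.sum_mul]
    rcases Nat.eq_zero_or_pos N with rfl | hN
    · simp
      positivity
    · have hN0 : (0:ℝ) < N := by exact_mod_cast hN
      calc (∑ n ∈ Ioc 0 N, vonMangoldt n) * ((q:ℝ) / N) ≤ (K * N) * (q / N) :=
            mul_le_mul_of_nonneg_right (hK N) (by positivity)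
        _ = q * K := by field_simp
  have h5 : ‖∑ n ∈ Ioc 0 N, twF χ n‖ * ‖L‖ ≤ q * (Real.log 3 / 3) + 1 + q * K := by
    rw [← norm_mul, h3]
    exact (norm_add_le _ _).trans (add_le_add (log_div_sum_bound χ hχ N) h4)
  exact h5

end Pool.Agent.H41.SF
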